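import Mathlib

set_option autoImplicit false

namespace Pool.Agent.Results.MP_96deef_nt.SecondDigit

open PowerSeries

/-- The geometric series `1 + x^a + x^(2a) + ... = (1 - x^a)⁻¹`, as a power series with natural
number coefficients. -/
noncomputable def geom (a : ℕ) : PowerSeries ℕ :=
  PowerSeries.mk fun n => if a ∣ n then 1 else 0

/-- `S k m n` is the coefficient of `x^n` in
`(1 - x)^(-m) * ∏_{j ≥ 0} (1 - x^(k^j))^(-(k-1)m)`.
Only the factors with `k^j ≤ n` matter for this coefficient, so (for `k ≥ 2`) it is enough to take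
the factors with `j ≤ n`. -/
noncomputable def S (k m n : ℕ) : ℕ :=
  PowerSeries.coeff n
    (geom 1 ^ m * ∏ j ∈ Finset.range (n + 1), geom (k ^ j) ^ ((k - 1) * m))

/-- `u m n = ν₂(w - 1)`, where `c_m(n) = S 2 m n = 2^a * w` with `w` odd; the value is `⊤` when
`w = 1`. -/
noncomputable def u (m n : ℕ) : ℕ∞ :=
  emultiplicity (2 : ℤ) ((ordCompl[2] (S 2 m n) : ℕ) - 1)

/-! ### Passing to integer coefficients -/

/-- integer version of `geom` -/
noncomputable def gZ (a : ℕ) : PowerSeries ℤ :=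
  PowerSeries.mk fun n => if a ∣ n then 1 else 0

theorem map_geom (a : ℕ) : PowerSeries.map (Nat.castRingHom ℤ) (geom a) = gZ a := by
  ext n
  simp [geom, gZ]

/-- partial products -/
noncomputable def P (N : ℕ) : PowerSeries ℤ :=
  gZ 1 ^ 3 * ∏ j ∈ Finset.range N, gZ (2 ^ j) ^ 3

theorem S_cast (n : ℕ) : (S 2 3 n : ℤ) = coeff n (P (n + 1)) := by
  have h : PowerSeries.map (Nat.castRingHom ℤ)
      (geom 1 ^ 3 * ∏ j ∈ Finset.range (n + 1), geom (2 ^ j) ^ ((2 - 1) * 3)) = P (n + 1) := by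
    rw [map_mul, map_pow, map_prod, map_geom]
    simp [P, map_pow, map_geom]
  rw [← h, S, PowerSeries.coeff_map]
  rfl

/-- the substitution `x ↦ x^2` -/
noncomputable def E : PowerSeries ℤ →ₐ[ℤ] PowerSeries ℤ := PowerSeries.expand 2 two_ne_zero

theorem E_X : E (X : PowerSeries ℤ) = X ^ 2 := by
  simp [E]

theorem coeff_E_even (f : PowerSeries ℤ) (n : ℕ) : coeff (2 * n) (E f) = coeff n f := by
  simp [E, coeff_expand]

theorem coeff_E_odd (f : PowerSeries ℤ) (n : ℕ) : coeff (2 * n + 1) (E f) = 0 := by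
  rw [E, coeff_expand, if_neg (by omega)]

theorem coeff_XE_even (f : PowerSeries ℤ) (n : ℕ) : coeff (2 * n) (X * E f) = 0 := by
  rcases n with _ | n
  · simp
  · rw [show 2 * (n + 1) = (2 * n + 1) + 1 by ring, coeff_succ_X_mul, coeff_E_odd]

theorem coeff_XE_odd (f : PowerSeries ℤ) (n : ℕ) : coeff (2 * n + 1) (X * E f) = coeff n f := by
  rw [coeff_succ_X_mul, coeff_E_even]

theorem E_gZ (a : ℕ) : E (gZ a) = gZ (2 * a) := by
  ext n
  rw [E, coeff_expand, gZ, gZ, coeff_mk, coeff_mk]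
  by_cases h : 2 ∣ n
  · obtain ⟨k, rfl⟩ := h
    have : (2 * a ∣ 2 * k) ↔ a ∣ k := Nat.mul_dvd_mul_iff_left (by norm_num)
    simp [this]
  · have h2 : ¬ (2 * a ∣ n) := fun hh => h ((Dvd.intro a rfl).trans hh)
    simp [h, h2]

/-- `g = 1/(1-x)` -/
noncomputable def g : PowerSeries ℤ := gZ 1

theorem g_mul : g * (1 - X) = 1 := by
  have h : g = PowerSeries.mk 1 := by
    ext n
    simp [g, gZ]
  rw [h]
  exact mk_one_mul_one_sub_eq_one ℤ

/-- `e = 1/(1-x^2)` -/
noncomputable def e : PowerSeries ℤ := E g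

theorem e_mul : e * (1 - X ^ 2) = 1 := by
  have h := congrArg E g_mul
  simpa [map_mul, map_sub, E_X, e] using h

theorem g_eq : g = (1 + X) * e := by
  have h1 := g_mul
  have h2 := e_mul
  linear_combination ((1 + X) * e) * h1 - g * h2

theorem gZ_mul (k : ℕ) : gZ (2 ^ k) * (1 - X ^ (2 ^ k)) = 1 := by
  induction k with
  | zero => simpa [g] using g_mul
  | succ k ih =>
    have h := congrArg E ih
    rw [map_mul, map_sub, map_pow, map_one, E_X, E_gZ] at h
    rw [pow_succ' 2 k, pow_mul]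
    exact h

theorem P_succ (N : ℕ) : P (N + 1) = g ^ 6 * (1 - X ^ 2) ^ 3 * E (P N) := by
  have h2 := e_mul
  have hE : E (P N) = e ^ 3 * ∏ j ∈ Finset.range N, gZ (2 ^ (j + 1)) ^ 3 := by
    rw [P, map_mul, map_pow, map_prod]
    congr 1
    refine Finset.prod_congr rfl fun j _ => ?_
    rw [map_pow, E_gZ, pow_succ' 2 j]
  rw [hE, P, Finset.prod_range_succ']
  have h3 : e ^ 3 * (1 - X ^ 2) ^ 3 = 1 := by
    rw [← mul_pow, h2, one_pow]
  have h4 : gZ (2 ^ 0) = g := rfl
  have h5 : gZ 1 = g := rfl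
  rw [h4, h5]
  linear_combination (-(g ^ 6) * ∏ j ∈ Finset.range N, gZ (2 ^ (j + 1)) ^ 3) * h3

theorem P_stable_step (n N : ℕ) (h : n < 2 ^ N) : coeff n (P (N + 1)) = coeff n (P N) := by
  have h1 := gZ_mul N
  have h2 : P (N + 1) = P N * gZ (2 ^ N) ^ 3 := by
    rw [P, P, Finset.prod_range_succ]
    ring
  have h3 : gZ (2 ^ N) ^ 3 = 1 + X ^ (2 ^ N) *
      (gZ (2 ^ N) + gZ (2 ^ N) ^ 2 + gZ (2 ^ N) ^ 3) := by
    linear_combination (gZ (2 ^ N) ^ 2 + gZ (2 ^ N) + 1) * h1
  rw [h2, h3, mul_add, mul_one, map_add]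
  have h4 : coeff n (P N * (X ^ (2 ^ N) *
      (gZ (2 ^ N) + gZ (2 ^ N) ^ 2 + gZ (2 ^ N) ^ 3))) = 0 := by
    rw [mul_left_comm, coeff_X_pow_mul', if_neg (by omega)]
  rw [h4, add_zero]

theorem P_stable (n N : ℕ) (h : n + 1 ≤ N) : coeff n (P N) = coeff n (P (n + 1)) := by
  induction N, h using Nat.le_induction with
  | base => rfl
  | succ N hN ih =>
    rw [P_stable_step n N, ih]
    calc n < 2 ^ n := Nat.lt_two_pow_self
      _ ≤ 2 ^ N := Nat.pow_le_pow_right (by norm_num) (by omega)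

/-- the generating series of `c_3(n)` -/
noncomputable def F : PowerSeries ℤ := PowerSeries.mk fun n => (S 2 3 n : ℤ)

theorem coeff_F (n : ℕ) : coeff n F = coeff n (P (n + 1)) := by
  rw [F, coeff_mk, S_cast]

theorem F_eq : F = g ^ 6 * (1 - X ^ 2) ^ 3 * E F := by
  ext n
  rw [coeff_F, ← P_stable_step n (n + 1)
    (lt_trans (Nat.lt_two_pow_self) (Nat.pow_lt_pow_right (by norm_num) (by omega))),
    P_succ, coeff_mul, coeff_mul]
  refine Finset.sum_congr rfl fun ij hij => ?_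
  congr 1
  have hj : ij.2 ≤ n := by
    have := (Finset.HasAntidiagonal.mem_antidiagonal).mp hij
    omega
  rw [E, coeff_expand, coeff_expand]
  split_ifs with h
  · rw [coeff_F, P_stable]
    omega
  · rfl

/-- partial sums -/
noncomputable def A : PowerSeries ℤ := g * F

/-- `z = x/(1-x)^2` -/
noncomputable def z : PowerSeries ℤ := X * g ^ 2

theorem EF_eq : E F = (1 - X ^ 2) * E A := by
  have h : E A = e * E F := by
    rw [A, map_mul, e]
  rw [h]
  have := e_mul
  linear_combination (-(E F)) * this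

theorem A_eq : A = (1 - X) * (1 + 8 * z + 16 * z ^ 2) * E A := by
  have h1 := g_mul
  have h2 : A = g ^ 7 * (1 - X ^ 2) ^ 4 * E A := by
    have hF := F_eq
    rw [EF_eq] at hF
    rw [A]
    nth_rewrite 1 [hF]
    rw [A]
    ring
  have h3 : g ^ 7 * (1 - X ^ 2) ^ 4 = g ^ 3 * (1 + X) ^ 4 := by
    have : g ^ 7 * (1 - X ^ 2) ^ 4 = (g * (1 - X)) ^ 4 * (g ^ 3 * (1 + X) ^ 4) := by ring
    rw [this, h1]
    ring
  have h4 : (1 - X) * (1 + 8 * z + 16 * z ^ 2) = g ^ 3 * (1 + X) ^ 4 := by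
    have h5 : g ^ 3 * (1 + X) ^ 4 = (g * (1 - X)) * (g ^ 3 * (1 + X) ^ 4) := by
      rw [h1, one_mul]
    have h6 : (1 + X) * g = 1 + 2 * X * g := by
      linear_combination h1
    have h7 : ((1 + X) * g) ^ 2 = 1 + 4 * z := by
      rw [h6, z]
      linear_combination (-4 * X * g) * h1
    have h8 : (g * (1 - X)) * (g ^ 3 * (1 + X) ^ 4) = (1 - X) * (((1 + X) * g) ^ 2) ^ 2 := by ring
    rw [h5, h8, h7]
    ring
  rw [h4, ← h3]
  exact h2

/-- the even part -/
noncomputable def D : PowerSeries ℤ := (1 + X) * (1 + 16 * z) * A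

/-- the odd part -/
noncomputable def O : PowerSeries ℤ := 6 * A + 32 * (z * A)

theorem F_eq_A : F = (1 - X) * A := by
  rw [A]
  have := g_mul
  linear_combination (-F) * this

theorem F_split : F = E D + X * E O := by
  have h1 := g_mul
  have h2 := e_mul
  have h3 := g_eq
  have hz : (1 - X) ^ 2 * z = X := by
    rw [z]
    linear_combination (X * (g * (1 - X) + 1)) * h1
  have hF : F = ((1 - X) ^ 2 + 8 * X + 16 * (X * z)) * E A := by
    rw [F_eq_A, A_eq]
    have : E ((1 - X) * (1 + 8 * z + 16 * z ^ 2) * E A) = E A := by rw [← A_eq]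
    rw [this]
    linear_combination (8 + 16 * z) * (E A) * hz
  have hEz : E z = X ^ 2 * e ^ 2 := by
    rw [z, map_mul, map_pow, E_X, e]
  have hXz : X * z = (1 + X ^ 2) * E z + 2 * X * E z := by
    rw [hEz, z, h3]
    ring
  have hD : E D = (1 + X ^ 2) * (1 + 16 * E z) * E A := by
    rw [D, map_mul, map_mul, map_add, map_add, map_mul, map_one, E_X, map_ofNat]
  have hO : E O = 6 * E A + 32 * (E z * E A) := by
    rw [O, map_add, map_mul, map_mul, map_mul, map_ofNat, map_ofNat]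
  rw [hF, hXz, hD, hO]
  ring

theorem B_eq : g * A = (1 + 8 * z + 16 * z ^ 2) * E A := by
  have h1 := g_mul
  have := A_eq
  linear_combination g * this + ((1 + 8 * z + 16 * z ^ 2) * E A) * h1

theorem D_split : ∃ R : PowerSeries ℤ, D = E F + X * E (24 * ((1 + X) * E A)) + 64 * R := by
  have h1 := g_mul
  have h2 := e_mul
  have h3 := g_eq
  have hEz : E z = X ^ 2 * e ^ 2 := by
    rw [z, map_mul, map_pow, E_X, e]
  have hD : D = (1 + 16 * z) * (1 + 8 * z + 16 * z ^ 2) * E F := by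
    rw [D, EF_eq]
    nth_rewrite 1 [A_eq]
    ring
  -- `z` and `z^2` in terms of `e`
  have hz1 : z = X * (1 + X ^ 2) * e ^ 2 + 2 * E z := by
    rw [hEz, z, h3]
    ring
  have hz2 : z ^ 2 = E z + 8 * (E z) ^ 2 + 4 * (X ^ 3 * (1 + X ^ 2) * e ^ 4) := by
    have h5 : z ^ 2 = X ^ 2 * (1 + X) ^ 4 * e ^ 4 := by
      rw [z, h3]
      ring
    have h6 : X ^ 2 * e ^ 2 = X ^ 2 * (1 - X ^ 2) ^ 2 * e ^ 4 := by
      linear_combination (-(X ^ 2 * e ^ 2) * (e * (1 - X ^ 2) + 1)) * h2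
    rw [h5, hEz, h6]
    have h7 : (X ^ 2 * (1 - X ^ 2) ^ 2 * e ^ 4 : PowerSeries ℤ) ^ 2
        = X ^ 4 * e ^ 4 * (e * (1 - X ^ 2)) ^ 4 := by ring
    rw [h7, h2]
    ring
  -- the odd part
  have hodd : (1 + X ^ 2) * e ^ 2 * E F = E ((1 + X) * E A) + 8 * (E ((1 + X) * (z + 2 * z ^ 2) * E A)) := by
    have h8 : (1 + X) * g ^ 2 * F = (1 + X) * E A + 8 * ((1 + X) * (z + 2 * z ^ 2) * E A) := by
      have := B_eq
      rw [A] at this
      rw [A]
      linear_combination (1 + X) * this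
    have h9 := congrArg E h8
    rw [map_add, map_mul, map_mul, map_add, map_pow, map_one, E_X, map_mul E 8, map_ofNat] at h9
    exact h9
  refine ⟨(E z + 2 * (E z) ^ 2) * E F + (X ^ 3 * (1 + X ^ 2) * e ^ 4) * E F
    + 2 * (z ^ 2 * (1 + 2 * z)) * E F + 3 * X * E ((1 + X) * (z + 2 * z ^ 2) * E A), ?_⟩
  have hE24 : E (24 * ((1 + X) * E A)) = 24 * E ((1 + X) * E A) := by
    rw [map_mul, map_ofNat]
  have hexp : (1 + 16 * z) * (1 + 8 * z + 16 * z ^ 2) = 1 + 24 * z + 16 * z ^ 2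
      + 64 * (2 * (z ^ 2 * (1 + 2 * z))) := by ring
  have hW : 24 * z + 16 * z ^ 2 = 24 * (X * (1 + X ^ 2) * e ^ 2)
      + 64 * (E z + 2 * (E z) ^ 2 + (X ^ 3 * (1 + X ^ 2) * e ^ 4)) := by
    linear_combination 24 * hz1 + 16 * hz2
  rw [hD, hexp, hE24]
  linear_combination (E F) * hW + 24 * X * hodd

/-! ### Coefficients -/

theorem coeff_A_even (n : ℕ) : (8 : ℤ) ∣ coeff (2 * n) A - coeff n A := by
  have h : A = E A + X * E (-A) + 8 * ((1 - X) * (z + 2 * z ^ 2) * E A) := by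
    have := A_eq
    rw [map_neg]
    linear_combination this
  nth_rewrite 1 [h]
  rw [map_add, map_add, coeff_E_even, coeff_XE_even]
  have h8 : coeff (2 * n) (8 * ((1 - X) * (z + 2 * z ^ 2) * E A))
      = 8 * coeff (2 * n) ((1 - X) * (z + 2 * z ^ 2) * E A) := by
    have : (8 : PowerSeries ℤ) = C (8 : ℤ) := by simp
    rw [this, coeff_C_mul]
  rw [h8]
  exact ⟨coeff (2 * n) ((1 - X) * (z + 2 * z ^ 2) * E A), by ring⟩

theorem coeff_A_odd (n : ℕ) : (8 : ℤ) ∣ coeff (2 * n + 1) A + coeff n A := by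
  have h : A = E A + X * E (-A) + 8 * ((1 - X) * (z + 2 * z ^ 2) * E A) := by
    have := A_eq
    rw [map_neg]
    linear_combination this
  nth_rewrite 1 [h]
  rw [map_add, map_add, coeff_E_odd, coeff_XE_odd]
  have h8 : coeff (2 * n + 1) (8 * ((1 - X) * (z + 2 * z ^ 2) * E A))
      = 8 * coeff (2 * n + 1) ((1 - X) * (z + 2 * z ^ 2) * E A) := by
    have : (8 : PowerSeries ℤ) = C (8 : ℤ) := by simp
    rw [this, coeff_C_mul]
  rw [h8, map_neg]
  exact ⟨coeff (2 * n + 1) ((1 - X) * (z + 2 * z ^ 2) * E A), by ring⟩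

theorem S_zero : S 2 3 0 = 1 := by
  simp [S, geom]

theorem coeff_A_zero : coeff 0 A = 1 := by
  have h1 : coeff 0 g = 1 := by simp [g, gZ]
  have h2 : coeff 0 F = 1 := by rw [F, coeff_mk, S_zero]; rfl
  rw [A]
  simp only [coeff_zero_eq_constantCoeff, map_mul] at h1 h2 ⊢
  rw [h1, h2]
  rfl

theorem coeff_A_mod (n : ℕ) : coeff n A % 8 = 1 ∨ coeff n A % 8 = 7 := by
  induction n using Nat.strong_induction_on with
  | _ n ih =>
    rcases Nat.even_or_odd' n with ⟨k, rfl | rfl⟩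
    · rcases Nat.eq_zero_or_pos k with rfl | hk
      · left
        rw [mul_zero, coeff_A_zero]
        rfl
      · have h := coeff_A_even k
        have := ih k (by omega)
        omega
    · have h := coeff_A_odd k
      have := ih k (by omega)
      omega

theorem coeff_F_odd (n : ℕ) : coeff (2 * n + 1) F = 6 * coeff n A + 32 * coeff n (z * A) := by
  rw [F_split, map_add, coeff_E_odd, coeff_XE_odd, O]
  have h6 : (6 : PowerSeries ℤ) = C (6 : ℤ) := by simp
  have h32 : (32 : PowerSeries ℤ) = C (32 : ℤ) := by simp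
  rw [map_add, h6, h32, coeff_C_mul, coeff_C_mul, zero_add]

theorem coeff_F_even (n : ℕ) : coeff (2 * n) F = coeff n D := by
  rw [F_split, map_add, coeff_E_even, coeff_XE_even, add_zero]

theorem coeff_oneX_EA (n : ℕ) : coeff n ((1 + X) * E A) = coeff (n / 2) A := by
  have h : (1 + X) * E A = E A + X * E A := by ring
  rw [h, map_add]
  rcases Nat.even_or_odd' n with ⟨k, rfl | rfl⟩
  · rw [coeff_E_even, coeff_XE_even, add_zero, show 2 * k / 2 = k by omega]
  · rw [coeff_E_odd, coeff_XE_odd, zero_add, show (2 * k + 1) / 2 = k by omega]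

theorem coeff_F_four (n : ℕ) : (64 : ℤ) ∣ coeff (4 * n) F - coeff n F := by
  obtain ⟨R, hR⟩ := D_split
  have h64 : (64 : PowerSeries ℤ) = C (64 : ℤ) := by simp
  rw [show 4 * n = 2 * (2 * n) by ring, coeff_F_even (2 * n), hR, map_add, map_add,
    coeff_E_even, coeff_XE_even, h64, coeff_C_mul]
  exact ⟨coeff (2 * n) R, by ring⟩

theorem coeff_F_two_odd (n : ℕ) :
    (64 : ℤ) ∣ coeff (2 * (2 * n + 1)) F - 24 * coeff (n / 2) A := by
  obtain ⟨R, hR⟩ := D_split
  have h64 : (64 : PowerSeries ℤ) = C (64 : ℤ) := by simp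
  have h24 : (24 : PowerSeries ℤ) = C (24 : ℤ) := by simp
  rw [coeff_F_even (2 * n + 1), hR, map_add, map_add,
    coeff_E_odd, coeff_XE_odd, h64, coeff_C_mul, h24, coeff_C_mul, coeff_oneX_EA]
  exact ⟨coeff (2 * n + 1) R, by ring⟩

/-- The residues of `c_3(n)`. -/
theorem S_mod (n : ℕ) (hn : 1 ≤ n) :
    (S 2 3 n % 16 = 6 ∨ S 2 3 n % 16 = 10) ∨ (S 2 3 n % 64 = 24 ∨ S 2 3 n % 64 = 40) := by
  induction n using Nat.strong_induction_on with
  | _ n ih =>
    rcases Nat.even_or_odd' n with ⟨k, rfl | rfl⟩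
    · rcases Nat.even_or_odd' k with ⟨l, rfl | rfl⟩
      · have h := coeff_F_four l
        have h1 := ih l (by omega) (by omega)
        rw [F, coeff_mk, coeff_mk] at h
        rw [show 2 * (2 * l) = 4 * l by ring]
        omega
      · have h := coeff_F_two_odd l
        have h1 := coeff_A_mod (l / 2)
        rw [F, coeff_mk] at h
        right
        omega
    · have h := coeff_F_odd k
      have h1 := coeff_A_mod k
      rw [F, coeff_mk] at h
      left
      omega

theorem ordCompl_eq (c a w : ℕ) (h : c = 2 ^ a * w) (hw : w % 2 = 1) : ordCompl[2] c = w := by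
  subst h
  have hw0 : w ≠ 0 := by rintro rfl; simp at hw
  have h1 : (2 ^ a * w).factorization 2 = a := by
    rw [Nat.factorization_mul (by positivity) hw0, Nat.Prime.factorization_pow Nat.prime_two]
    have : w.factorization 2 = 0 := Nat.factorization_eq_zero_of_not_dvd (by omega)
    simp [this]
  rw [h1]
  exact Nat.mul_div_cancel_left w (by positivity)

theorem emult_one (w : ℕ) (h : w % 4 = 3) : emultiplicity (2 : ℤ) ((w : ℤ) - 1) = 1 := by
  have : emultiplicity (2 : ℤ) ((w : ℤ) - 1) = ((1 : ℕ) : ℕ∞) := by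
    rw [emultiplicity_eq_coe]
    constructor
    · norm_num
      omega
    · norm_num
      omega
  simpa using this

theorem emult_two (w : ℕ) (h : w % 8 = 5) : emultiplicity (2 : ℤ) ((w : ℤ) - 1) = 2 := by
  have : emultiplicity (2 : ℤ) ((w : ℤ) - 1) = ((2 : ℕ) : ℕ∞) := by
    rw [emultiplicity_eq_coe]
    constructor
    · norm_num
      omega
    · norm_num
      omega
  simpa using this

theorem u_of (n a w : ℕ) (h : S 2 3 n = 2 ^ a * w) (hw : w % 8 = 3 ∨ w % 8 = 5) :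
    (w % 8 = 3 → u 3 n = 1) ∧ (w % 8 = 5 → u 3 n = 2) := by
  have h1 : ordCompl[2] (S 2 3 n) = w := ordCompl_eq _ a w h (by omega)
  constructor
  · intro h3
    rw [u, h1]
    exact emult_one w (by omega)
  · intro h5
    rw [u, h1]
    exact emult_two w h5

/-- **The sequence `u_3(n)` takes exactly the two values `1` and `2`.** -/
theorem result : u 3 '' {n : ℕ | 1 ≤ n} = {1, 2} := by
  have key : ∀ n : ℕ, 1 ≤ n → u 3 n = 1 ∨ u 3 n = 2 := by
    intro n hn
    rcases S_mod n hn with h | h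
    · have hw : S 2 3 n = 2 ^ 1 * (S 2 3 n / 2) := by omega
      have := u_of n 1 (S 2 3 n / 2) hw (by omega)
      have h8 : S 2 3 n / 2 % 8 = 3 ∨ S 2 3 n / 2 % 8 = 5 := by omega
      rcases h8 with h8 | h8
      · exact Or.inl (this.1 h8)
      · exact Or.inr (this.2 h8)
    · have hw : S 2 3 n = 2 ^ 3 * (S 2 3 n / 8) := by omega
      have := u_of n 3 (S 2 3 n / 8) hw (by omega)
      have h8 : S 2 3 n / 8 % 8 = 3 ∨ S 2 3 n / 8 % 8 = 5 := by omega
      rcases h8 with h8 | h8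
      · exact Or.inl (this.1 h8)
      · exact Or.inr (this.2 h8)
  have hA0 := coeff_A_zero
  have h1 : u 3 1 = 1 := by
    have h := coeff_F_odd 0
    rw [hA0, F, coeff_mk] at h
    simp only [mul_zero, zero_add] at h
    exact (u_of 1 1 (S 2 3 1 / 2) (by omega) (by omega)).1 (by omega)
  have h3 : u 3 3 = 2 := by
    have h := coeff_F_odd 1
    have hA1 := coeff_A_odd 0
    simp only [mul_zero, zero_add] at hA1
    rw [hA0] at hA1
    rw [F, coeff_mk] at h
    norm_num at h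
    exact (u_of 3 1 (S 2 3 3 / 2) (by omega) (by omega)).2 (by omega)
  ext x
  constructor
  · rintro ⟨n, hn, rfl⟩
    exact key n hn
  · rintro (rfl | rfl)
    · exact ⟨1, le_refl 1, h1⟩
    · exact ⟨3, by simp, h3⟩

end Pool.Agent.Results.MP_96deef_nt.SecondDigit
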